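import Pool.Agent.Helper25.LS.Defs2

/-!
# LS-PC: small parallelogram defect and Euclidean distances in low dimensions
-/

set_option autoImplicit false

open Filter Topology Module

noncomputable section

namespace Pool.Agent.Helper86.LS

open Pool.Agent.Helper25.LS

/-- a well conditioned linear map from `Fin k → ℂ` -/
theorem exists_basis (k : ℕ) : ∀ (E : Type) [NormedAddCommGroup E] [NormedSpace ℂ E],
    k ≤ finrank ℂ E → ∃ T : (Fin k → ℂ) →ₗ[ℂ] E,
      ∀ a, ‖T a‖ ≤ k * ‖a‖ ∧ ‖a‖ ≤ (3 : ℝ) ^ k * ‖T a‖ := by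
  induction k with
  | zero =>
    intro E _ _ _
    refine ⟨0, fun a => ?_⟩
    have : a = 0 := by
      funext i
      exact i.elim0
    simp [this]
  | succ k ih =>
    intro E _ _ hk
    obtain ⟨T, hT⟩ := ih E (by omega)
    set F : Submodule ℂ E := LinearMap.range T with hF
    have hfin : finrank ℂ F ≤ k := by
      have := LinearMap.finrank_range_le T
      simpa using this
    have hne : ∃ x : E, x ∉ F := by
      by_contra hcon
      push Not at hcon
      have htop : F = ⊤ := by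
        rw [Submodule.eq_top_iff']
        exact hcon
      rw [htop, finrank_top] at hfin
      omega
    have hcl : IsClosed (F : Set E) := Submodule.closed_of_finiteDimensional F
    obtain ⟨x₀, hx₀, hx⟩ := riesz_lemma hcl hne (show (1 / 2 : ℝ) < 1 by norm_num)
    have hx0 : x₀ ≠ 0 := by
      rintro rfl
      exact hx₀ F.zero_mem
    have hn0 : 0 < ‖x₀‖ := norm_pos_iff.2 hx0
    set x : E := ((‖x₀‖⁻¹ : ℝ) : ℂ) • x₀ with hxd
    have hxn : ‖x‖ = 1 := by
      rw [hxd, norm_smul, Complex.norm_real, norm_inv, norm_norm, inv_mul_cancel₀ hn0.ne']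
    have hxF : ∀ y ∈ F, (1 / 2 : ℝ) ≤ ‖x - y‖ := by
      intro y hy
      have h1 := hx (((‖x₀‖ : ℝ) : ℂ) • y) (F.smul_mem _ hy)
      have h2 : x - y = ((‖x₀‖⁻¹ : ℝ) : ℂ) • (x₀ - ((‖x₀‖ : ℝ) : ℂ) • y) := by
        rw [smul_sub, smul_smul, ← Complex.ofReal_mul, inv_mul_cancel₀ hn0.ne']
        simp [hxd]
      rw [h2, norm_smul, Complex.norm_real, norm_inv, norm_norm]
      rw [inv_mul_eq_div, le_div_iff₀ hn0]
      exact h1
    have hlow : ∀ (t : ℂ), ∀ y ∈ F, ‖t‖ ≤ 2 * ‖y + t • x‖ := by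
      intro t y hy
      by_cases ht : t = 0
      · subst ht
        simp
      · have h1 : y + t • x = t • (x - (-(t⁻¹) • y)) := by
          rw [smul_sub, smul_smul]
          simp [ht]
          abel
        have h2 := hxF (-(t⁻¹) • y) (F.smul_mem _ hy)
        rw [h1, norm_smul]
        nlinarith [norm_nonneg t]
    refine ⟨T ∘ₗ (LinearMap.pi fun i : Fin k => LinearMap.proj (Fin.castSucc i)) +
      (LinearMap.proj (Fin.last k)).smulRight x, fun a => ?_⟩
    set b : Fin k → ℂ := fun i => a (Fin.castSucc i) with hb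
    have hval : (T ∘ₗ (LinearMap.pi fun i : Fin k => LinearMap.proj (Fin.castSucc i)) +
      (LinearMap.proj (Fin.last k)).smulRight x : (Fin (k + 1) → ℂ) →ₗ[ℂ] E) a =
        T b + a (Fin.last k) • x := by
      simp [hb]
      rfl
    rw [hval]
    have hbn : ‖b‖ ≤ ‖a‖ := by
      refine (pi_norm_le_iff_of_nonneg (norm_nonneg _)).2 fun i => ?_
      exact norm_le_pi_norm a _
    have hln : ‖a (Fin.last k)‖ ≤ ‖a‖ := norm_le_pi_norm a _
    constructor
    · have h1 := (hT b).1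
      calc ‖T b + a (Fin.last k) • x‖ ≤ ‖T b‖ + ‖a (Fin.last k) • x‖ := norm_add_le _ _
        _ ≤ k * ‖a‖ + 1 * ‖a‖ := by
            refine add_le_add (h1.trans (mul_le_mul_of_nonneg_left hbn (Nat.cast_nonneg _))) ?_
            rw [norm_smul, hxn]
            linarith
        _ = ((k + 1 : ℕ) : ℝ) * ‖a‖ := by
            push_cast
            ring
    · have h2 := hlow (a (Fin.last k)) (T b) ⟨b, rfl⟩
      have h3 : ‖T b‖ ≤ 3 * ‖T b + a (Fin.last k) • x‖ := by
        have h4 : T b = (T b + a (Fin.last k) • x) - a (Fin.last k) • x := by abel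
        have h5 : ‖T b‖ ≤ ‖T b + a (Fin.last k) • x‖ + ‖a (Fin.last k) • x‖ := by
          conv_lhs => rw [h4]
          exact norm_sub_le _ _
        rw [norm_smul, hxn] at h5
        linarith
      have h6 : ‖b‖ ≤ (3 : ℝ) ^ (k + 1) * ‖T b + a (Fin.last k) • x‖ := by
        calc ‖b‖ ≤ (3 : ℝ) ^ k * ‖T b‖ := (hT b).2
          _ ≤ (3 : ℝ) ^ k * (3 * ‖T b + a (Fin.last k) • x‖) :=
              mul_le_mul_of_nonneg_left h3 (by positivity)
          _ = _ := by ring
      have h7 : ‖a (Fin.last k)‖ ≤ (3 : ℝ) ^ (k + 1) * ‖T b + a (Fin.last k) • x‖ := by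
        refine h2.trans (mul_le_mul_of_nonneg_right ?_ (norm_nonneg _))
        have : (3 : ℝ) ^ 1 ≤ (3 : ℝ) ^ (k + 1) :=
          pow_le_pow_right₀ (by norm_num) (by omega)
        linarith
      refine (pi_norm_le_iff_of_nonneg (by positivity)).2 fun i => ?_
      refine Fin.lastCases ?_ (fun i => ?_) i
      · exact h7
      · exact (norm_le_pi_norm b i).trans h6

/-- limits of bounded real sequences along an ultrafilter -/
theorem exists_lim (U : Ultrafilter ℕ) (f : ℕ → ℝ) (M : ℝ) (h0 : ∀ j, 0 ≤ f j)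
    (h1 : ∀ j, f j ≤ M) : ∃ L : ℝ, Tendsto f (U : Filter ℕ) (𝓝 L) := by
  have hc : IsCompact (Set.Icc (0 : ℝ) M) := isCompact_Icc
  obtain ⟨L, _, hL⟩ := hc.ultrafilter_le_nhds (U.map f) (by
    rw [le_principal_iff]
    have h2 : f ⁻¹' Set.Icc 0 M = Set.univ := by
      ext j
      simp [h0 j, h1 j]
    change f ⁻¹' Set.Icc 0 M ∈ (U : Filter ℕ)
    rw [h2]
    exact Filter.univ_mem)
  exact ⟨L, hL⟩

theorem main (d : ℕ) (h3 : S_HI) (h4 : S_FD) (B : ℕ → Type) [∀ j, NormedAddCommGroup (B j)]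
    [∀ j, NormedSpace ℂ (B j)] (E : ∀ j, Submodule ℂ (B j)) (hd : ∀ j, finrank ℂ (E j) = d)
    (hfd : ∀ j, FiniteDimensional ℂ (E j))
    (hpd : ∀ j : ℕ, PD (B j) (1 / ((j : ℝ) + 1))) : ∃ j, Euc (B j) (E j) 2 := by
  set U : Ultrafilter ℕ := Filter.hyperfilter ℕ with hUd
  have hU : (U : Filter ℕ) ≤ atTop := Nat.hyperfilter_le_atTop
  choose T hT using fun j => exists_basis d (E j) (hd j).ge
  have hlim : ∀ a : Fin d → ℂ, ∃ L, Tendsto (fun j => ‖T j a‖) (U : Filter ℕ) (𝓝 L) := fun a =>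
    exists_lim U _ (d * ‖a‖) (fun j => norm_nonneg _) (fun j => (hT j a).1)
  choose N hN using hlim
  have hN1 : ∀ a, N a ≤ d * ‖a‖ := fun a => le_of_tendsto' (hN a) (fun j => (hT j a).1)
  have hN2 : ∀ a, ‖a‖ ≤ 3 ^ d * N a := fun a =>
    ge_of_tendsto' ((hN a).const_mul _) (fun j => (hT j a).2)
  have hN3 : ∀ a b, N (a + b) ≤ N a + N b := fun a b =>
    le_of_tendsto_of_tendsto' (hN (a + b)) ((hN a).add (hN b)) (fun j => by
      rw [map_add]
      exact norm_add_le _ _)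
  have hN4 : ∀ (c : ℂ) a, N (c • a) = ‖c‖ * N a := fun c a => by
    refine tendsto_nhds_unique (hN (c • a)) ?_
    refine ((hN a).const_mul ‖c‖).congr fun j => ?_
    rw [map_smul, norm_smul]
  have hinv : Tendsto (fun j : ℕ => 1 / ((j : ℝ) + 1)) (U : Filter ℕ) (𝓝 0) :=
    tendsto_one_div_add_atTop_nhds_zero_nat.mono_left hU
  have hN5 : ∀ a b, N (a + b) * N (a + b) + N (a - b) * N (a - b) =
      2 * (N a * N a + N b * N b) := by
    intro a b
    have h1 : Tendsto (fun j => ‖T j (a + b)‖ ^ 2 + ‖T j (a - b)‖ ^ 2 - 2 * ‖T j a‖ ^ 2 -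
        2 * ‖T j b‖ ^ 2) (U : Filter ℕ)
        (𝓝 (N (a + b) ^ 2 + N (a - b) ^ 2 - 2 * N a ^ 2 - 2 * N b ^ 2)) :=
      (((((hN (a + b)).pow 2).add ((hN (a - b)).pow 2)).sub (((hN a).pow 2).const_mul 2)).sub
        (((hN b).pow 2).const_mul 2))
    have h2 : Tendsto (fun j => ‖T j (a + b)‖ ^ 2 + ‖T j (a - b)‖ ^ 2 - 2 * ‖T j a‖ ^ 2 -
        2 * ‖T j b‖ ^ 2) (U : Filter ℕ) (𝓝 0) := by
      have h3' : Tendsto (fun j : ℕ => 1 / ((j : ℝ) + 1) * (‖T j a‖ ^ 2 + ‖T j b‖ ^ 2))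
          (U : Filter ℕ) (𝓝 0) := by
        have := hinv.mul (((hN a).pow 2).add ((hN b).pow 2))
        simpa using this
      refine squeeze_zero_norm (fun j => ?_) h3'
      have h5 := hpd j (T j a : B j) (T j b : B j)
      rw [Real.norm_eq_abs, map_add, map_sub]
      simpa using h5
    have h6 := tendsto_nhds_unique h1 h2
    nlinarith [h6]
  obtain ⟨H, iH1, iH2, iH3, Φ, hΦ⟩ := h3 (Fin d → ℂ) (3 ^ d * d) (fun a => 3 ^ d * N a)
    (fun y => ⟨hN2 y, by
      have := hN1 y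
      calc (3 : ℝ) ^ d * N y ≤ 3 ^ d * (d * ‖y‖) :=
            mul_le_mul_of_nonneg_left this (by positivity)
        _ = 3 ^ d * d * ‖y‖ := by ring⟩)
    (fun y z => by
      have := hN3 y z
      calc (3 : ℝ) ^ d * N (y + z) ≤ 3 ^ d * (N y + N z) :=
            mul_le_mul_of_nonneg_left this (by positivity)
        _ = _ := by ring)
    (fun c y => by
      rw [hN4]
      ring)
    (fun y z => by
      have := hN5 y z
      calc (3 : ℝ) ^ d * N (y + z) * (3 ^ d * N (y + z)) +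
            3 ^ d * N (y - z) * (3 ^ d * N (y - z)) =
            3 ^ d * 3 ^ d * (N (y + z) * N (y + z) + N (y - z) * N (y - z)) := by ring
        _ = 3 ^ d * 3 ^ d * (2 * (N y * N y + N z * N z)) := by rw [this]
        _ = _ := by ring)
  have hHfd : FiniteDimensional ℂ H := Φ.toLinearEquiv.finiteDimensional
  have hHdim : finrank ℂ H = d := by
    rw [← Φ.toLinearEquiv.finrank_eq]
    simp
  set A : ∀ j, H →ₗ[ℂ] E j := fun j =>
    ((3 : ℂ) ^ d) • (T j ∘ₗ (Φ.symm.toLinearEquiv : H →ₗ[ℂ] (Fin d → ℂ))) with hA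
  have hAv : ∀ j v, ‖A j v‖ = 3 ^ d * ‖T j (Φ.symm v)‖ := by
    intro j v
    have : A j v = ((3 : ℂ) ^ d) • T j (Φ.symm v) := rfl
    rw [this, norm_smul, norm_pow]
    norm_num
  have hAlim : ∀ v, Tendsto (fun j => ‖A j v‖) (U : Filter ℕ) (𝓝 ‖v‖) := by
    intro v
    have h1 := (hN (Φ.symm v)).const_mul ((3 : ℝ) ^ d)
    have h2 : (3 : ℝ) ^ d * N (Φ.symm v) = ‖v‖ := by
      rw [← hΦ (Φ.symm v), ContinuousLinearEquiv.apply_symm_apply]
    rw [h2] at h1
    exact h1.congr fun j => (hAv j v).symm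
  have hup : ∀ᶠ j in (U : Filter ℕ), ∀ v, ‖A j v‖ ≤ 5 / 4 * ‖v‖ := by
    refine h4 H (fun j => E j) U A 1 (5 / 4) (by norm_num) (by norm_num) ?_
    intro v δ hδ
    have h1 := (hAlim v).eventually (eventually_lt_nhds (show ‖v‖ < 1 * ‖v‖ + δ by linarith))
    exact h1.mono fun j hj => hj.le
  have hlo : ∀ᶠ j in (U : Filter ℕ), ∀ v, ‖v‖ = 1 → 3 / 4 ≤ ‖A j v‖ := by
    by_contra hcon
    rw [← Ultrafilter.eventually_not] at hcon
    have h1 : ∀ᶠ j in (U : Filter ℕ), ∃ v : H, ‖v‖ = 1 ∧ ‖A j v‖ < 3 / 4 := by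
      refine hcon.mono fun j hj => ?_
      push Not at hj
      exact hj
    obtain ⟨v, hv⟩ := h1.choice
    have : ProperSpace H := FiniteDimensional.proper ℂ H
    obtain ⟨w, hw, hwl⟩ := (isCompact_sphere (0 : H) 1).ultrafilter_le_nhds (U.map v) (by
      rw [le_principal_iff]
      change v ⁻¹' _ ∈ (U : Filter ℕ)
      exact hv.mono fun j hj => by simpa using hj.1)
    have hw1 : ‖w‖ = 1 := by simpa using hw
    have hvw : Tendsto v (U : Filter ℕ) (𝓝 w) := hwl
    have h2 : ∀ᶠ j in (U : Filter ℕ), ‖w - v j‖ < 1 / 20 := by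
      have := (hvw.const_sub w).norm
      rw [sub_self, norm_zero] at this
      exact this.eventually (eventually_lt_nhds (by norm_num))
    have h3' : ∀ᶠ j in (U : Filter ℕ), 15 / 16 < ‖A j w‖ := by
      have := hAlim w
      rw [hw1] at this
      exact this.eventually (eventually_gt_nhds (by norm_num))
    obtain ⟨j, ⟨⟨hj1, hj2⟩, hj3⟩, hj4⟩ := (((hv.and h2).and h3').and hup).exists
    have h5 : ‖A j w‖ ≤ ‖A j (v j)‖ + ‖A j (w - v j)‖ := by
      have : A j w = A j (v j) + A j (w - v j) := by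
        rw [← map_add]
        congr 1
        abel
      rw [this]
      exact norm_add_le _ _
    have h6 := hj4 (w - v j)
    have h7 := hj1.2
    linarith
  obtain ⟨j, hj1, hj2⟩ := (hup.and hlo).exists
  have hlow : ∀ v, 3 / 4 * ‖v‖ ≤ ‖A j v‖ := by
    intro v
    by_cases hv : v = 0
    · subst hv
      simp
    · have hn : 0 < ‖v‖ := norm_pos_iff.2 hv
      have h1 := hj2 (((‖v‖⁻¹ : ℝ) : ℂ) • v) (by
        rw [norm_smul, Complex.norm_real, norm_inv, norm_norm, inv_mul_cancel₀ hn.ne'])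
      rw [map_smul, norm_smul, Complex.norm_real, norm_inv, norm_norm, inv_mul_eq_div,
        le_div_iff₀ hn] at h1
      exact h1
  have hinj : Function.Injective (A j) := by
    rw [← LinearMap.ker_eq_bot, LinearMap.ker_eq_bot']
    intro v hv
    have := hlow v
    rw [hv, norm_zero] at this
    have h2 : ‖v‖ = 0 := le_antisymm (by linarith) (norm_nonneg _)
    exact norm_eq_zero.1 h2
  have := hfd j
  set e : H ≃ₗ[ℂ] E j := LinearMap.linearEquivOfInjective (A j) hinj (by rw [hHdim, hd j]) with he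
  have hev : ∀ v, e v = A j v := fun v => rfl
  set r := (stdOrthonormalBasis ℂ H).repr with hr
  set u : E j ≃L[ℂ] EuclideanSpace ℂ (Fin (finrank ℂ H)) :=
    (e.symm.trans r.toLinearEquiv).toContinuousLinearEquiv with hu
  refine ⟨j, finrank ℂ H, u, ?_⟩
  have hu1 : ‖(u : E j →L[ℂ] EuclideanSpace ℂ (Fin (finrank ℂ H)))‖ ≤ 4 / 3 := by
    refine ContinuousLinearMap.opNorm_le_bound _ (by norm_num) fun x => ?_
    have h1 : ‖(u : E j →L[ℂ] EuclideanSpace ℂ (Fin (finrank ℂ H))) x‖ = ‖e.symm x‖ := by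
      change ‖r (e.symm x)‖ = _
      exact r.norm_map _
    have h2 := hlow (e.symm x)
    rw [← hev, LinearEquiv.apply_symm_apply] at h2
    rw [h1]
    linarith
  have hu2 : ‖(u.symm : EuclideanSpace ℂ (Fin (finrank ℂ H)) →L[ℂ] E j)‖ ≤ 5 / 4 := by
    refine ContinuousLinearMap.opNorm_le_bound _ (by norm_num) fun x => ?_
    have h1 : (u.symm : EuclideanSpace ℂ (Fin (finrank ℂ H)) →L[ℂ] E j) x = A j (r.symm x) := rfl
    rw [h1]
    refine (hj1 _).trans ?_
    rw [LinearIsometryEquiv.norm_map]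
  calc _ ≤ (4 / 3 : ℝ) * (5 / 4) := mul_le_mul hu1 hu2 (ContinuousLinearMap.opNorm_nonneg _) (by norm_num)
    _ ≤ 2 := by norm_num

theorem one_dim (h3 : S_HI) (h4 : S_FD) (d : ℕ) : ∃ δ : ℝ, 0 < δ ∧
    ∀ (B : Type) [NormedAddCommGroup B] [NormedSpace ℂ B], PD B δ →
      ∀ E : Submodule ℂ B, FiniteDimensional ℂ E → finrank ℂ E = d → Euc B E 2 := by
  by_contra hcon
  push Not at hcon
  choose B i1 i2 hB E hE1 hE2 hE3 using fun j : ℕ =>
    hcon (1 / ((j : ℝ) + 1)) (by positivity)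
  obtain ⟨j, hj⟩ := main d h3 h4 B E hE2 hE1 hB
  exact hE3 j hj

theorem pc (h3 : S_HI) (h4 : S_FD) : S_PC := by
  intro m
  choose δ hδ h using fun d => one_dim h3 h4 d
  have hne : (Finset.range (m + 1)).Nonempty := ⟨0, by simp⟩
  refine ⟨(Finset.range (m + 1)).inf' hne δ, ?_, ?_⟩
  · rw [Finset.lt_inf'_iff]
    exact fun d _ => hδ d
  · intro B _ _ hB E hE hm
    refine h (finrank ℂ E) B ?_ E hE rfl
    intro x y
    refine (hB x y).trans (mul_le_mul_of_nonneg_right ?_ (by positivity))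
    exact Finset.inf'_le _ (Finset.mem_range.2 (by omega))

end Pool.Agent.Helper86.LS
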